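import Pool.Agent.Helper11K9.EC.Rul

/-!
# Rational maps of degree three from `E × C`

Let `E` be an elliptic curve and `C` a smooth projective curve of genus `g ≥ 1` over the complex
numbers. We determine for which `g` there is a dominant rational map of degree three from `E × C` to
the plane (Q1), and to a surface with `p_g = 0` (Q2). The answers do not depend on the choice of `E`
and `C`; in particular they hold for very general ones.

(1) **`g = 1`: there is a dominant rational map `E × C ⇢ ℙ²` of degree three.** It is given by a
simple formula. With a point of order three on `E` we write `E` as `u v = z³`, `v - u = 2 (α z + γ)`,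
and in the same way `C` as `u' v' = z'³`, `v' - u' = 2 (α' z' + γ')`, with `γ, γ' ≠ 0`. The map is
`(z' / z, u' / u)`. (The curves are hyperplane sections of the toric surface `u v = z³`, and the map is
the quotient of the two points in the torus; a curve in this surface meets a translate of the other
one in three points.)

Proof. Let `τ = z' / z` and `s = u' / u`. Then `u' = s u`, `v' = (τ³ / s) v`, so that the two linear
equations give `u` and `v` as polynomials of degree one in `z` over `ℂ(τ, s)`, and `u v = z³` is an
equation of degree three for `z` over `ℂ(τ, s)`. It is totally ramified over `s = 0`.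

(2) **`g ≥ 2`: there is no such map**, even for curves `E` of any genus `≥ 1`. More generally, a
surface `S` with `p_g(S) = q(S) = 0` is not the image of `E × C` under a rational map of degree three.

Proof. Let `V = E × C ⇢ S` be such a map, `α` a regular differential of `E` and `β = f β₀` one of `C`;
here `f` is a quotient of two differentials of `C`. The traces of the forms `α`, `f β₀`, `f α ∧ β₀` are
regular forms on `S`, hence zero. If `C` does not descend to `S` then it generates the function field
of `V` (as three is prime) and by Clifford's theorem the functions `f` span at least two dimensions of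
the three of the function field of `V` over the one of `S`. So the coefficients of `β₀` and of
`α ∧ β₀` are in a space of dimension one, that is, they are multiples of one function `κ` by
functions of `S`; cancel `κ` and take the trace, to obtain `3 α ∧ β₀ / κ = (Tr α) ∧ ... = 0`. If `C`
descends then `S` has regular `1`-forms.

(3) **For all `g` there is a dominant rational map of degree three from `E × C` onto a surface with
`p_g = 0`**, namely onto `ℙ¹ × C`.

The function-field language of the starting repository is used. The function field of `S` is a
subfield `L` of the function field `K` of `E × C`, the degree is `[K : L]`. Differential forms are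
functions of rational vector fields (derivations); `Place ℂ L` are the normalised discrete valuations
of `L` over `ℂ`, `Divisorial 2 P` says that `P` is a prime divisor on some normal model of `S`; a form
is regular at `P` if its values on vector fields which are regular at `P` are regular at `P`.
-/

set_option autoImplicit false
set_option linter.overlappingInstances false

open FF Pool.Agent.W602.GT
open Pool.Agent.R882.Over (GenusZero)
open Pool.Agent.Helper11K9.OD (regularForms)

namespace Pool.Agent.Results.MP_9293ae_ag.DegreeThree

/-- `K` is the function field of the product of two curves over `ℂ`, and `F 0`, `F 1` are the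
function fields of the curves (embedded in `K` by the projections): they are finitely generated of
transcendence degree one, they generate `K`, and the transcendence degree of `K` is `2`. -/
structure IsProductOfCurves {K : Type} [Field K] [Algebra ℂ K]
    (F : Fin 2 → IntermediateField ℂ K) : Prop where
  curve : ∀ i, IsFF ℂ (F i)
  gen : ⨆ i, F i = ⊤
  dim : Algebra.trdeg ℂ K = (2 : ℕ)

/-- `F` is the function field of the elliptic curve `y² = x³ + a x + b`, `4 a³ + 27 b² ≠ 0`, for some
complex numbers `a`, `b`. -/
def IsEllipticCurve (F : Type) [Field F] [Algebra ℂ F] : Prop :=
  ∃ a b : ℂ, 4 * a ^ 3 + 27 * b ^ 2 ≠ 0 ∧ ∃ x y : F, Transcendental ℂ x ∧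
    y ^ 2 = x ^ 3 + algebraMap ℂ F a * x + algebraMap ℂ F b ∧
    IntermediateField.adjoin ℂ {x, y} = ⊤

/-- The genus of a curve with the function field `F`: the dimension of the space `regularForms F` of
regular differential forms. -/
noncomputable def genus (F : Type) [Field F] [Algebra ℂ F] : ℕ :=
  Module.finrank ℂ (regularForms F)

/-- The definition of `regularForms`: a differential form `ω` on a curve with the function field `F`,
an `F`-linear map from the rational vector fields (the derivations of `F`) to `F`, is regular if
`ω δ` has no pole at `P` for all points (places) `P` and all vector fields `δ` regular at `P`. -/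
theorem mem_regularForms {F : Type} [Field F] [Algebra ℂ F] {ω : Derivation ℂ F F →ₗ[F] F} :
    ω ∈ regularForms F ↔ ∀ (P : Place ℂ F) (δ : Derivation ℂ F F),
      (∀ f, P.Reg f → P.Reg (δ f)) → P.Reg (ω δ) := Iff.rfl

/-- `L` is the function field of the plane: `L = ℂ(s, t)` with independent `s`, `t`. -/
def IsPlane (L : Type) [Field L] [Algebra ℂ L] : Prop :=
  ∃ s t : L, AlgebraicIndependent ℂ ![s, t] ∧ IntermediateField.adjoin ℂ {s, t} = ⊤

/-- The smooth projective surfaces with the function field `L` have `q = 0`: the only differential
form of degree one which is regular at all prime divisors is `0`. -/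
def IrregularityZero (L : Type) [Field L] [Algebra ℂ L] : Prop :=
  ∀ ω : Derivation ℂ L L →ₗ[L] L, (∀ P : Place ℂ L, Divisorial 2 P →
    ∀ δ : Derivation ℂ L L, (∀ f, P.Reg f → P.Reg (δ f)) → P.Reg (ω δ)) → ω = 0

/-- **Rational maps of degree three from the product of two curves.** Let `K` be the function field
of a product of two curves with the function fields `F 0` and `F 1`.

(1) If both curves are elliptic then there is a dominant rational map of degree three to the plane.

(2) If the genera are at least one and at least two then there is no dominant rational map of degree
three to the plane, nor to any surface with `p_g = q = 0`.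

(3) If the first curve is elliptic then there is a dominant rational map of degree three to a surface
with `p_g = 0`. -/
theorem result {K : Type} [Field K] [Algebra ℂ K] (F : Fin 2 → IntermediateField ℂ K)
    (hF : IsProductOfCurves F) :
    (IsEllipticCurve (F 0) → IsEllipticCurve (F 1) →
      ∃ L : IntermediateField ℂ K, IsPlane L ∧ Module.finrank L K = 3) ∧
    (1 ≤ genus (F 0) → 2 ≤ genus (F 1) → ∀ L : IntermediateField ℂ K, Module.finrank L K = 3 →
      ¬ IsPlane L ∧ ¬ (GenusZero L 2 ∧ IrregularityZero L)) ∧
    (IsEllipticCurve (F 0) →
      ∃ L : IntermediateField ℂ K, GenusZero L 2 ∧ Module.finrank L K = 3) := by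
  have hcurve := hF.curve
  refine ⟨fun h0 h1 => ?_, fun h0 h1 L h3 => ?_, fun h0 => ?_⟩
  · exact Pool.Agent.Helper11K9.EC.two_ell F hF.gen hF.dim fun i => by
      fin_cases i
      · exact h0
      · exact h1
  · have hfin : FiniteDimensional L K := FiniteDimensional.of_finrank_pos (by omega)
    have key : ¬ (GenusZero L 2 ∧ IrregularityZero L) := fun h =>
      Pool.Agent.Helper11K9.EC.none F hF.gen hF.dim h0 h1 L h3 h.1 h.2
    exact ⟨fun h => key (Pool.Agent.Helper11K9.EC.plane h), key⟩
  · exact Pool.Agent.Helper11K9.EC.to_ruled F hF.gen hF.dim h0

end Pool.Agent.Results.MP_9293ae_ag.DegreeThree
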